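import Pool.Agent.helper68.FY.Spec

/-!
# Project fy, row PLN: points of a lattice in the plane
-/

set_option autoImplicit false

namespace Pool.Agent.helper68.FY

open Finset

theorem PLN_le_nm (x : V4) (k : Fin 4) : (x k).natAbs ≤ nm x := by
  unfold nm
  exact Finset.le_sup (f := fun i => (x i).natAbs) (Finset.mem_univ k)

theorem PLN_abs_le (x : V4) (k : Fin 4) (R : ℕ) (h : nm x ≤ R) : |x k| ≤ R := by
  have h1 := PLN_le_nm x k
  have h2 : (x k).natAbs ≤ R := h1.trans h
  have h3 : ((x k).natAbs : ℤ) ≤ R := by exact_mod_cast h2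
  rwa [Int.natCast_natAbs] at h3

theorem PLN_exists (x : V4) : ∃ l, (x l).natAbs = nm x := by
  obtain ⟨l, _, hl⟩ := Finset.exists_mem_eq_sup (Finset.univ : Finset (Fin 4)) ⟨0, Finset.mem_univ _⟩
    (fun i => (x i).natAbs)
  exact ⟨l, hl.symm⟩

theorem PLN_pl_le (x y : V4) (i j : Fin 4) (a b : ℕ) (hx : nm x ≤ a) (hy : nm y ≤ b) :
    |pl x y i j| ≤ 2 * a * b := by
  unfold pl
  have h1 := PLN_abs_le x i a hx
  have h2 := PLN_abs_le x j a hx
  have h3 := PLN_abs_le y i b hy
  have h4 := PLN_abs_le y j b hy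
  have h5 : |x i * y j| ≤ (a : ℤ) * b := by
    rw [abs_mul]
    exact mul_le_mul h1 h4 (abs_nonneg _) (by positivity)
  have h6 : |x j * y i| ≤ (a : ℤ) * b := by
    rw [abs_mul]
    exact mul_le_mul h2 h3 (abs_nonneg _) (by positivity)
  calc |x i * y j - x j * y i| ≤ |x i * y j| + |x j * y i| := abs_sub _ _
    _ ≤ 2 * a * b := by linarith

theorem PLN_pl_sub (e x y : V4) (i j : Fin 4) : pl e (x - y) i j = pl e x i j - pl e y i j := by
  unfold pl
  simp only [Pi.sub_apply]
  ring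

theorem PLN_quot {m z z' : ℤ} (hm : 0 < m) (h : z / m = z' / m) : |z - z'| < m := by
  have h1 := Int.emod_nonneg z hm.ne'
  have h2 := Int.emod_lt_of_pos z hm
  have h3 := Int.emod_nonneg z' hm.ne'
  have h4 := Int.emod_lt_of_pos z' hm
  have h5 := Int.emod_add_mul_ediv z m
  have h6 := Int.emod_add_mul_ediv z' m
  rw [h] at h5
  rw [abs_lt]
  constructor <;> linarith

theorem PLN_range {z : ℤ} {m M : ℕ} (hm : 0 < m) (h : |z| ≤ M) :
    z / (m : ℤ) ∈ Finset.Icc (-((M / m : ℕ) + 1 : ℤ)) ((M / m : ℕ) : ℤ) := by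
  have hm' : (0 : ℤ) < m := by exact_mod_cast hm
  rw [abs_le] at h
  have hM : (M : ℤ) < ((M / m : ℕ) + 1 : ℤ) * m := by
    have h2 : M < (M / m + 1) * m := by
      have := Nat.lt_mul_div_succ M hm
      rw [mul_comm] at this
      exact this
    exact_mod_cast h2
  rw [Finset.mem_Icc]
  constructor
  · rw [Int.le_ediv_iff_mul_le hm']
    linarith
  · have : z / (m : ℤ) < ((M / m : ℕ) : ℤ) + 1 := by
      rw [Int.ediv_lt_iff_lt_mul hm']
      linarith
    linarith

/-- **PLN**. -/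
theorem PLN : PLN_stmt := by
  intro Λ i j μ R hμ hΛ F hF hxy
  classical
  obtain ⟨x, hx, y, hy, hpl⟩ := hxy
  have hx0 : x ≠ 0 := by
    intro h
    apply hpl
    unfold pl
    simp [h]
  -- a shortest vector
  have hex : ∃ n : ℕ, ∃ e ∈ Λ, e ≠ 0 ∧ nm e = n := ⟨nm x, x, (hF x hx).1, hx0, rfl⟩
  obtain ⟨e, heΛ, he0, hen⟩ := Nat.find_spec hex
  set lam := Nat.find hex with hlam
  have hmin : ∀ z ∈ Λ, z ≠ 0 → lam ≤ nm z := fun z hz hz0 => Nat.find_min' hex ⟨z, hz, hz0, rfl⟩
  have hlamR : lam ≤ R := (hmin x (hF x hx).1 hx0).trans (hF x hx).2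
  obtain ⟨l, hl⟩ := PLN_exists e
  rw [hen] at hl
  have hlam0 : 0 < lam := by
    rw [Nat.pos_iff_ne_zero]
    intro h0
    apply he0
    funext k
    have := PLN_le_nm e k
    rw [hen, h0] at this
    exact Int.natAbs_eq_zero.1 (Nat.le_zero.1 this)
  have hel : |e l| = lam := by
    rw [← hl, Int.natCast_natAbs]
  have hel0 : e l ≠ 0 := by
    intro h
    rw [h] at hl
    simp only [Int.natAbs_zero] at hl
    omega
  -- one of the two has a nonzero minor with `e`
  have hone : ∃ δ, nm δ ≤ R ∧ (μ : ℤ) ≤ |pl e δ i j| := by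
    rcases hΛ e heΛ x (hF x hx).1 with h1 | h1
    · rcases hΛ e heΛ y (hF y hy).1 with h2 | h2
      · exfalso
        apply hpl
        have a1 := h1 l i
        have a2 := h1 l j
        have a3 := h2 l i
        have a4 := h2 l j
        unfold pl at a1 a2 a3 a4 ⊢
        have h5 : (e l) ^ 2 * (x i * y j - x j * y i) = 0 := by
          linear_combination (e l * y j) * a1 - (e l * y i) * a2 - (e j * x l) * a3 + (e i * x l) * a4
        rcases mul_eq_zero.1 h5 with h6 | h6
        · exact absurd (pow_eq_zero_iff (two_ne_zero) |>.1 h6) hel0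
        · exact h6
      · exact ⟨y, (hF y hy).2, h2⟩
    · exact ⟨x, (hF x hx).2, h1⟩
  have hμ2 : μ ≤ 2 * lam * R := by
    obtain ⟨δ, hδ, hδ2⟩ := hone
    have := hδ2.trans (PLN_pl_le e δ i j lam R hen.le hδ)
    exact_mod_cast this
  set A := 2 * lam * R / μ with hA
  set B := R / lam with hB
  have hA1 : 1 ≤ A := by
    rw [hA, Nat.le_div_iff_mul_le (by omega)]
    omega
  have hB1 : 1 ≤ B := by
    rw [hB, Nat.le_div_iff_mul_le hlam0]
    omega
  have hcard : F.card ≤ ((Finset.Icc (-((A : ℤ) + 1)) (A : ℤ)) ×ˢ (Finset.Icc (-((B : ℤ) + 1)) (B : ℤ))).card := by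
    refine Finset.card_le_card_of_injOn (fun δ => (pl e δ i j / (μ : ℤ), δ l / (lam : ℤ))) ?_ ?_
    · intro δ hδ
      have hδ' := hF δ (Finset.mem_coe.1 hδ)
      refine Finset.mem_coe.2 (Finset.mem_product.2 ⟨?_, ?_⟩)
      · have h1 := PLN_pl_le e δ i j lam R hen.le hδ'.2
        have h2 : |pl e δ i j| ≤ ((2 * lam * R : ℕ) : ℤ) := by
          push_cast
          exact h1
        exact PLN_range (by omega) h2
      · exact PLN_range hlam0 (PLN_abs_le δ l R hδ'.2)
    · intro δ hδ δ' hδ' heq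
      have h1 := hF δ (Finset.mem_coe.1 hδ)
      have h2 := hF δ' (Finset.mem_coe.1 hδ')
      have h3 : pl e δ i j / (μ : ℤ) = pl e δ' i j / (μ : ℤ) := congrArg Prod.fst heq
      have h4 : δ l / (lam : ℤ) = δ' l / (lam : ℤ) := congrArg Prod.snd heq
      have hμ0 : (0 : ℤ) < μ := by exact_mod_cast (by omega : 0 < μ)
      have h5 := PLN_quot hμ0 h3
      have h6 := PLN_quot (by exact_mod_cast hlam0 : (0 : ℤ) < lam) h4
      by_contra hne
      have hz : δ - δ' ∈ Λ := Λ.sub_mem h1.1 h2.1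
      have hz0 : δ - δ' ≠ 0 := sub_ne_zero.2 hne
      have hall : ∀ k m, pl e (δ - δ') k m = 0 := by
        rcases hΛ e heΛ (δ - δ') hz with h7 | h7
        · exact h7
        · rw [PLN_pl_sub] at h7
          omega
      have hlt : nm (δ - δ') < lam := by
        unfold nm
        rw [Finset.sup_lt_iff (by simpa using hlam0)]
        intro k _
        have h7 := hall l k
        unfold pl at h7
        have h8 : e l * (δ - δ') k = e k * (δ - δ') l := by linarith
        have h9 : |e l| * |(δ - δ') k| = |e k| * |(δ - δ') l| := by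
          rw [← abs_mul, ← abs_mul, h8]
        have h10 : |e k| ≤ (lam : ℤ) := PLN_abs_le e k lam hen.le
        have h11 : |(δ - δ') l| < (lam : ℤ) := h6
        rw [hel] at h9
        have hlam0' : (0 : ℤ) < lam := by exact_mod_cast hlam0
        have h12 : (lam : ℤ) * |(δ - δ') k| < lam * lam := by
          rw [h9]
          calc |e k| * |(δ - δ') l| ≤ lam * |(δ - δ') l| :=
                mul_le_mul_of_nonneg_right h10 (abs_nonneg _)
            _ < lam * lam := mul_lt_mul_of_pos_left h11 hlam0'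
        have h13 : |(δ - δ') k| < (lam : ℤ) := lt_of_mul_lt_mul_left h12 hlam0'.le
        rw [← Int.natCast_natAbs] at h13
        exact_mod_cast h13
      have := hmin _ hz hz0
      omega
  rw [Finset.card_product, Int.card_Icc, Int.card_Icc] at hcard
  have hc1 : ((A : ℤ) + 1 - -((A : ℤ) + 1)).toNat = 2 * A + 2 := by omega
  have hc2 : ((B : ℤ) + 1 - -((B : ℤ) + 1)).toNat = 2 * B + 2 := by omega
  rw [hc1, hc2] at hcard
  have h1 : (2 * A + 2) * (2 * B + 2) ≤ (4 * A) * (4 * B) := Nat.mul_le_mul (by omega) (by omega)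
  have h2 : A * μ ≤ 2 * lam * R := Nat.div_mul_le_self _ _
  have h3 : B * lam ≤ R := Nat.div_mul_le_self _ _
  calc F.card * μ ≤ ((4 * A) * (4 * B)) * μ := Nat.mul_le_mul_right _ (hcard.trans h1)
    _ = 16 * ((A * μ) * B) := by ring
    _ ≤ 16 * ((2 * lam * R) * B) := Nat.mul_le_mul_left _ (Nat.mul_le_mul_right _ h2)
    _ = 32 * (R * (B * lam)) := by ring
    _ ≤ 32 * (R * R) := Nat.mul_le_mul_left _ (Nat.mul_le_mul_left _ h3)
    _ = 32 * R ^ 2 := by ring

end Pool.Agent.helper68.FY
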